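import Mathlib

/-!
# Combinatorial part: no spanning tree on the eight leg points has all cuts at most two
-/

namespace Pool.Agent.Helper29.Stab

/-- Aggregated form: `I` internal edges, `E d` edges between cyclically consecutive legs,
`F`, `G` edges between opposite legs. -/
theorem agg (I E0 E1 E2 E3 F G : ℕ) (hI : I ≤ 4)
    (h0 : E0 + E3 + F ≤ 2) (h1 : E0 + E1 + G ≤ 2) (h2 : E1 + E2 + F ≤ 2) (h3 : E2 + E3 + G ≤ 2)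
    (p0 : E1 + E3 + F + G ≤ 2) (p1 : E0 + E2 + F + G ≤ 2)
    (c0 : 1 ≤ E0 + E3 + F) (c1 : 1 ≤ E0 + E1 + G) (c2 : 1 ≤ E1 + E2 + F) (c3 : 1 ≤ E2 + E3 + G)
    (q0 : 1 ≤ E1 + E3 + F + G) (q1 : 1 ≤ E0 + E2 + F + G)
    (tot : I + E0 + E1 + E2 + E3 + F + G = 7) :
    F = 0 ∧ G = 0 ∧ ((I = 3 ∧ E0 = 1 ∧ E1 = 1 ∧ E2 = 1 ∧ E3 = 1) ∨
      (I = 4 ∧ ((E0 = 0 ∧ E1 = 1 ∧ E2 = 1 ∧ E3 = 1) ∨ (E0 = 1 ∧ E1 = 0 ∧ E2 = 1 ∧ E3 = 1) ∨
        (E0 = 1 ∧ E1 = 1 ∧ E2 = 0 ∧ E3 = 1) ∨ (E0 = 1 ∧ E1 = 1 ∧ E2 = 1 ∧ E3 = 0)))) := by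
  have hF : F ≤ 2 := by omega
  have hG : G ≤ 2 := by omega
  interval_cases F <;> interval_cases G <;> omega

theorem contraB (E0 I2 E3 u v aa2 ab2 ba2 bb2 : ℕ) (h0 : E0 = 1) (h3 : E3 = 1) (hm : I2 = 1)
    (h2 : aa2 + ab2 + ba2 + bb2 = 1) (S : E0 + u + I2 + (ba2 + bb2) ≤ 2)
    (T : I2 + v + (aa2 + ab2) + E3 ≤ 2) : False := by
  omega

theorem contraA (aa0 ab0 ba0 bb0 aa1 ab1 ba1 bb1 E2 E3 I0 I1 I2 u w : ℕ)
    (h0 : aa0 + ab0 + ba0 + bb0 = 1) (h1 : aa1 + ab1 + ba1 + bb1 = 1) (h2 : E2 = 1) (h3 : E3 = 0)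
    (j0 : I0 = 1) (j1 : I1 = 1) (j2 : I2 = 1)
    (S1 : (aa0 + ab0 + ba0 + bb0) + (aa1 + ba1) + I2 + u ≤ 2)
    (T1 : I1 + (ab0 + bb0) + (aa1 + ab1) + E2 ≤ 2)
    (T0 : I0 + w + (aa0 + ab0) + (aa1 + ab1 + ba1 + bb1) ≤ 2)
    (S0 : E3 + (aa0 + ba0) + I1 + (ba1 + bb1) ≤ 2) : False := by
  omega

theorem comb_aux (x01 x02 x03 x04 x05 x06 x07 x12 x13 x14 x15 x16 x17 x23 x24 x25 x26 x27 x34 x35 x36 x37 x45 x46 x47 x56 x57 x67 : ℕ)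
    (i0 : x01 ≤ 1)
    (i1 : x23 ≤ 1)
    (i2 : x45 ≤ 1)
    (i3 : x67 ≤ 1)
    (l0 : x02 + x03 + x04 + x05 + x06 + x07 + x12 + x13 + x14 + x15 + x16 + x17 ≤ 2)
    (l1 : x02 + x12 + x24 + x25 + x26 + x27 + x03 + x13 + x34 + x35 + x36 + x37 ≤ 2)
    (l2 : x04 + x14 + x24 + x34 + x46 + x47 + x05 + x15 + x25 + x35 + x56 + x57 ≤ 2)
    (l3 : x06 + x16 + x26 + x36 + x46 + x56 + x07 + x17 + x27 + x37 + x47 + x57 ≤ 2)
    (p0 : x04 + x05 + x06 + x07 + x14 + x15 + x16 + x17 + x24 + x25 + x26 + x27 + x34 + x35 + x36 + x37 ≤ 2)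
    (p1 : x02 + x12 + x26 + x27 + x03 + x13 + x36 + x37 + x04 + x14 + x46 + x47 + x05 + x15 + x56 + x57 ≤ 2)
    (s0 : x02 + x04 + x05 + x06 + x07 + x12 + x14 + x15 + x16 + x17 + x23 + x34 + x35 + x36 + x37 ≤ 2)
    (s1 : x02 + x12 + x24 + x26 + x27 + x03 + x13 + x34 + x36 + x37 + x05 + x15 + x45 + x56 + x57 ≤ 2)
    (s2 : x04 + x14 + x24 + x34 + x46 + x05 + x15 + x25 + x35 + x56 + x07 + x17 + x27 + x37 + x67 ≤ 2)
    (s3 : x01 + x12 + x13 + x14 + x15 + x06 + x26 + x36 + x46 + x56 + x07 + x27 + x37 + x47 + x57 ≤ 2)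
    (t0 : x01 + x14 + x15 + x16 + x17 + x02 + x24 + x25 + x26 + x27 + x03 + x34 + x35 + x36 + x37 ≤ 2)
    (t1 : x03 + x13 + x23 + x36 + x37 + x04 + x14 + x24 + x46 + x47 + x05 + x15 + x25 + x56 + x57 ≤ 2)
    (t2 : x05 + x15 + x25 + x35 + x45 + x06 + x16 + x26 + x36 + x46 + x07 + x17 + x27 + x37 + x47 ≤ 2)
    (t3 : x02 + x03 + x04 + x05 + x06 + x12 + x13 + x14 + x15 + x16 + x27 + x37 + x47 + x57 + x67 ≤ 2)
    (c0 : 1 ≤ x02 + x03 + x04 + x05 + x06 + x07 + x12 + x13 + x14 + x15 + x16 + x17)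
    (c1 : 1 ≤ x02 + x12 + x24 + x25 + x26 + x27 + x03 + x13 + x34 + x35 + x36 + x37)
    (c2 : 1 ≤ x04 + x14 + x24 + x34 + x46 + x47 + x05 + x15 + x25 + x35 + x56 + x57)
    (c3 : 1 ≤ x06 + x16 + x26 + x36 + x46 + x56 + x07 + x17 + x27 + x37 + x47 + x57)
    (q0 : 1 ≤ x04 + x05 + x06 + x07 + x14 + x15 + x16 + x17 + x24 + x25 + x26 + x27 + x34 + x35 + x36 + x37)
    (q1 : 1 ≤ x02 + x12 + x26 + x27 + x03 + x13 + x36 + x37 + x04 + x14 + x46 + x47 + x05 + x15 + x56 + x57)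
    (tot : x01 + x02 + x03 + x04 + x05 + x06 + x07 + x12 + x13 + x14 + x15 + x16 + x17 + x23 + x24 + x25 + x26 + x27 + x34 + x35 + x36 + x37 + x45 + x46 + x47 + x56 + x57 + x67 = 7) : False := by
  have hI : x01 + x23 + x45 + x67 ≤ 4 := add_le_add (add_le_add (add_le_add i0 i1) i2) i3
  have key := agg (x01 + x23 + x45 + x67) (x02 + x03 + x12 + x13) (x24 + x25 + x34 + x35) (x46 + x47 + x56 + x57) (x06 + x16 + x07 + x17) (x04 + x05 + x14 + x15) (x26 + x27 + x36 + x37) hI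
    (le_trans (le_of_eq (by ring)) l0) (le_trans (le_of_eq (by ring)) l1) (le_trans (le_of_eq (by ring)) l2) (le_trans (le_of_eq (by ring)) l3)
    (le_trans (le_of_eq (by ring)) p0) (le_trans (le_of_eq (by ring)) p1)
    (le_trans c0 (le_of_eq (by ring))) (le_trans c1 (le_of_eq (by ring))) (le_trans c2 (le_of_eq (by ring))) (le_trans c3 (le_of_eq (by ring)))
    (le_trans q0 (le_of_eq (by ring))) (le_trans q1 (le_of_eq (by ring)))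
    (Eq.trans (by ring) tot)
  have S0 : (x06 + x16 + x07 + x17) + (x02 + x12) + x23 + (x34 + x35) ≤ 2 := le_trans (by clear * -; omega) s0
  have T0 : x01 + (x16 + x17) + (x02 + x03) + (x24 + x25 + x34 + x35) ≤ 2 := le_trans (by clear * -; omega) t0
  have S1 : (x02 + x03 + x12 + x13) + (x24 + x34) + x45 + (x56 + x57) ≤ 2 := le_trans (by clear * -; omega) s1
  have T1 : x23 + (x03 + x13) + (x24 + x25) + (x46 + x47 + x56 + x57) ≤ 2 := le_trans (by clear * -; omega) t1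
  have S2 : (x24 + x25 + x34 + x35) + (x46 + x56) + x67 + (x07 + x17) ≤ 2 := le_trans (by clear * -; omega) s2
  have T2 : x45 + (x25 + x35) + (x46 + x47) + (x06 + x16 + x07 + x17) ≤ 2 := le_trans (by clear * -; omega) t2
  have S3 : (x46 + x47 + x56 + x57) + (x06 + x07) + x01 + (x12 + x13) ≤ 2 := le_trans (by clear * -; omega) s3
  have T3 : x67 + (x47 + x57) + (x06 + x16) + (x02 + x03 + x12 + x13) ≤ 2 := le_trans (by clear * -; omega) t3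
  clear l0 l1 l2 l3 p0 p1 s0 s1 s2 s3 t0 t1 t2 t3 c0 c1 c2 c3 q0 q1 tot
  obtain ⟨-, -, ⟨hI3, h0, h1, h2, h3⟩ | ⟨hI4, key⟩⟩ := key
  · have hm : x23 = 1 ∨ x45 = 1 := by clear * - hI3 i0 i1 i2 i3; omega
    rcases hm with hm | hm
    · exact contraB (x06 + x16 + x07 + x17) x23 (x46 + x47 + x56 + x57) (x02 + x12) (x03 + x13) x24 x25 x34 x35 h3 h2 hm h1 S0 T1
    · exact contraB (x02 + x03 + x12 + x13) x45 (x06 + x16 + x07 + x17) (x24 + x34) (x25 + x35) x46 x47 x56 x57 h0 h3 hm h2 S1 T2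
  · obtain ⟨j0, j1, j2, j3⟩ : x01 = 1 ∧ x23 = 1 ∧ x45 = 1 ∧ x67 = 1 := by
      clear * - hI4 i0 i1 i2 i3; omega
    rcases key with ⟨h0, h1, h2, h3⟩ | ⟨h0, h1, h2, h3⟩ | ⟨h0, h1, h2, h3⟩ | ⟨h0, h1, h2, h3⟩
    · exact contraA x24 x25 x34 x35 x46 x47 x56 x57 (x06 + x16 + x07 + x17) (x02 + x03 + x12 + x13) x23 x45 x67 (x07 + x17) (x03 + x13) h1 h2 h3 h0 j1 j2 j3 S2 T2 T1 S1
    · exact contraA x46 x47 x56 x57 x06 x16 x07 x17 (x02 + x03 + x12 + x13) (x24 + x25 + x34 + x35) x45 x67 x01 (x12 + x13) (x25 + x35) h2 h3 h0 h1 j2 j3 j0 S3 T3 T2 S2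
    · exact contraA x06 x16 x07 x17 x02 x03 x12 x13 (x24 + x25 + x34 + x35) (x46 + x47 + x56 + x57) x67 x01 x23 (x34 + x35) (x47 + x57) h3 h0 h1 h2 j3 j0 j1 S0 T0 T3 S3
    · exact contraA x02 x03 x12 x13 x24 x25 x34 x35 (x46 + x47 + x56 + x57) (x06 + x16 + x07 + x17) x01 x23 x45 (x56 + x57) (x16 + x17) h0 h1 h2 h3 j0 j1 j2 S1 T1 T0 S0

end Pool.Agent.Helper29.Stab
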