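import Mathlib

/-!
# Stabbing numbers of geometric trees: definitions
-/

namespace Pool.Agent.Helper29.Stab

/-- A line of the plane `ℝ × ℝ`. -/
def IsLine (l : Set (ℝ × ℝ)) : Prop :=
  ∃ a b c : ℝ, (a ≠ 0 ∨ b ≠ 0) ∧ l = {p : ℝ × ℝ | a * p.1 + b * p.2 = c}

/-- The line `l` stabs the closed segment `pq`: the intersection is exactly one point, and that
point lies in the relative interior of the segment. -/
def Stabs (l : Set (ℝ × ℝ)) (p q : ℝ × ℝ) : Prop :=
  ∃ z : ℝ × ℝ, l ∩ segment ℝ p q = {z} ∧ z ∈ openSegment ℝ p q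

/-- The number of edges of `G` (a graph whose vertices are the points of `S`, every edge drawn as
a straight segment) that are stabbed by the line `l`. -/
noncomputable def stabCount {S : Finset (ℝ × ℝ)} (G : SimpleGraph S) (l : Set (ℝ × ℝ)) : ℕ :=
  {e : Sym2 S | ∃ p q : S, G.Adj p q ∧ e = s(p, q) ∧ Stabs l p q}.ncard

/-- The stabbing number of `G`: the maximum over all lines `l` of the number of edges of `G`
stabbed by `l`. -/
noncomputable def stabNumber {S : Finset (ℝ × ℝ)} (G : SimpleGraph S) : ℕ :=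
  sSup {k : ℕ | ∃ l : Set (ℝ × ℝ), IsLine l ∧ k = stabCount G l}

/-- `TREE-STAB(S)`: the minimum stabbing number over all trees with vertex set `S`. -/
noncomputable def treeStab (S : Finset (ℝ × ℝ)) : ℕ :=
  sInf {k : ℕ | ∃ G : SimpleGraph S, G.IsTree ∧ k = stabNumber G}

theorem stabCount_le {S : Finset (ℝ × ℝ)} (G : SimpleGraph S) (l : Set (ℝ × ℝ)) :
    stabCount G l ≤ Nat.card (Sym2 S) := by
  unfold stabCount
  exact Set.ncard_le_card _

theorem bddAbove {S : Finset (ℝ × ℝ)} (G : SimpleGraph S) :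
    BddAbove {k : ℕ | ∃ l : Set (ℝ × ℝ), IsLine l ∧ k = stabCount G l} := by
  refine ⟨Nat.card (Sym2 S), ?_⟩
  rintro k ⟨l, -, rfl⟩
  exact stabCount_le G l

theorem le_stabNumber {S : Finset (ℝ × ℝ)} (G : SimpleGraph S) {l : Set (ℝ × ℝ)}
    (hl : IsLine l) : stabCount G l ≤ stabNumber G :=
  le_csSup (bddAbove G) ⟨l, hl, rfl⟩

/-- A line strictly separating the endpoints stabs the segment. -/
theorem stabs_of_lt {a b c : ℝ} {p q : ℝ × ℝ} (hp : a * p.1 + b * p.2 < c)
    (hq : c < a * q.1 + b * q.2) : Stabs {r : ℝ × ℝ | a * r.1 + b * r.2 = c} p q := by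
  set u := a * p.1 + b * p.2 with hu
  set v := a * q.1 + b * q.2 with hv
  have huv : 0 < v - u := by linarith
  set t : ℝ := (c - u) / (v - u) with ht
  have ht0 : 0 < t := div_pos (by linarith) huv
  have ht1 : t < 1 := by rw [ht, div_lt_one huv]; linarith
  have htm : t * (v - u) = c - u := by rw [ht]; field_simp
  refine ⟨(1 - t) • p + t • q, ?_, ⟨1 - t, t, by linarith, ht0, by ring, rfl⟩⟩
  ext r
  simp only [Set.mem_inter_iff, Set.mem_setOf_eq, Set.mem_singleton_iff]
  constructor
  · rintro ⟨h1, x, y, hx, hy, hxy, rfl⟩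
    have e1 : x * u + y * v = c := by
      rw [hu, hv]
      simp only [Prod.fst_add, Prod.snd_add, Prod.smul_fst, Prod.smul_snd, smul_eq_mul] at h1
      linarith [h1]
    have hx' : x = 1 - y := by linarith
    subst hx'
    have e2 : (y - t) * (v - u) = 0 := by nlinarith [e1, htm]
    have e3 : y = t := by
      rcases mul_eq_zero.mp e2 with h | h
      · linarith
      · linarith
    rw [e3]
  · rintro rfl
    refine ⟨?_, 1 - t, t, by linarith, ht0.le, by ring, rfl⟩
    simp only [Prod.fst_add, Prod.snd_add, Prod.smul_fst, Prod.smul_snd, smul_eq_mul]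
    have : (1 - t) * u + t * v = c := by nlinarith [htm]
    rw [hu, hv] at this
    linarith [this]

theorem stabs_of_gt {a b c : ℝ} {p q : ℝ × ℝ} (hp : c < a * p.1 + b * p.2)
    (hq : a * q.1 + b * q.2 < c) : Stabs {r : ℝ × ℝ | a * r.1 + b * r.2 = c} p q := by
  obtain ⟨z, h1, h2⟩ := stabs_of_lt hq hp
  exact ⟨z, by rw [segment_symm]; exact h1, by rw [openSegment_symm]; exact h2⟩

end Pool.Agent.Helper29.Stab
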