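import Mathlib
import Pool.Agent.Helper29.Stab.Defs
import Pool.Agent.Helper29.Stab.Comb

/-!
# Lower bound: every spanning tree of the eight leg points is stabbed three times
-/

open Finset

set_option linter.unusedSimpArgs false

namespace Pool.Agent.Helper29.Stab

/-- Integer coordinates of the eight leg points. -/
def P8 : Fin 8 → ℤ × ℤ :=
  ![(1, 0), (2, 0), (0, 1), (0, 2), (-1, 0), (-2, 0), (0, -1), (0, -2)]

/-- Real coordinates. -/
def R (z : ℤ × ℤ) : ℝ × ℝ := ((z.1 : ℝ), (z.2 : ℝ))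

theorem R_inj : Function.Injective R := by
  intro z w h
  unfold R at h
  have h1 := congrArg Prod.fst h
  have h2 := congrArg Prod.snd h
  simp only [Int.cast_inj] at h1 h2
  exact Prod.ext h1 h2

theorem P8_inj : Function.Injective P8 := by decide

/-- The embedding of `Fin 8` into the plane. -/
def emb8 : Fin 8 ↪ ℝ × ℝ := ⟨fun i => R (P8 i), R_inj.comp P8_inj⟩

/-- The eight leg points. -/
noncomputable def T8 : Finset (ℝ × ℝ) := Finset.univ.map emb8

theorem emb8_mem (i : Fin 8) : emb8 i ∈ T8 := Finset.mem_map_of_mem _ (Finset.mem_univ i)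

/-- The labelling of the eight points. -/
noncomputable def f8 : Fin 8 ≃ T8 :=
  Equiv.ofBijective (fun i => ⟨emb8 i, emb8_mem i⟩) (by
    constructor
    · intro i j h
      exact emb8.injective (congrArg Subtype.val h)
    · rintro ⟨p, hp⟩
      obtain ⟨i, -, hi⟩ := Finset.mem_map.mp hp
      exact ⟨i, Subtype.ext hi⟩)

theorem f8_val (i : Fin 8) : ((f8 i : T8) : ℝ × ℝ) = R (P8 i) := rfl

open Classical in
/-- Adjacency indicator of the relabelled graph. -/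
noncomputable def ev (G : SimpleGraph T8) (u v : Fin 8) : ℕ := if G.Adj (f8 u) (f8 v) then 1 else 0

theorem ev_le (G : SimpleGraph T8) (u v : Fin 8) : ev G u v ≤ 1 := by
  unfold ev; split_ifs <;> simp

theorem ev_comm (G : SimpleGraph T8) (u v : Fin 8) : ev G u v = ev G v u := by
  unfold ev
  by_cases h : G.Adj (f8 u) (f8 v)
  · rw [if_pos h, if_pos h.symm]
  · rw [if_neg h, if_neg (fun h' => h h'.symm)]

theorem ev_self (G : SimpleGraph T8) (u : Fin 8) : ev G u u = 0 := by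
  unfold ev; simp

theorem cut_le (G : SimpleGraph T8) (X Y : Finset (Fin 8)) (a b c : ℤ) (hab : a ≠ 0 ∨ b ≠ 0)
    (hX : ∀ u ∈ X, c < a * (P8 u).1 + b * (P8 u).2)
    (hY : ∀ u ∈ Y, a * (P8 u).1 + b * (P8 u).2 < c) :
    ∑ u ∈ X, ∑ v ∈ Y, ev G u v ≤ stabNumber G := by
  classical
  set l : Set (ℝ × ℝ) := {p : ℝ × ℝ | (a : ℝ) * p.1 + (b : ℝ) * p.2 = (c : ℝ)} with hl
  have hline : IsLine l := ⟨a, b, c, by exact_mod_cast hab, rfl⟩
  refine le_trans ?_ (le_stabNumber G hline)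
  have h1 : ∑ u ∈ X, ∑ v ∈ Y, ev G u v =
      ((X ×ˢ Y).filter (fun p => G.Adj (f8 p.1) (f8 p.2))).card := by
    rw [Finset.card_filter, Finset.sum_product]
    rfl
  rw [h1]
  unfold stabCount
  rw [← Set.ncard_coe_finset]
  have gX : ∀ u ∈ X, (c : ℝ) < (a : ℝ) * (R (P8 u)).1 + (b : ℝ) * (R (P8 u)).2 := by
    intro u hu
    have := hX u hu
    show (c : ℝ) < (a : ℝ) * ((P8 u).1 : ℝ) + (b : ℝ) * ((P8 u).2 : ℝ)
    exact_mod_cast this
  have gY : ∀ u ∈ Y, (a : ℝ) * (R (P8 u)).1 + (b : ℝ) * (R (P8 u)).2 < (c : ℝ) := by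
    intro u hu
    have := hY u hu
    show (a : ℝ) * ((P8 u).1 : ℝ) + (b : ℝ) * ((P8 u).2 : ℝ) < (c : ℝ)
    exact_mod_cast this
  refine Set.ncard_le_ncard_of_injOn (fun p => s(f8 p.1, f8 p.2)) ?_ ?_
  · intro p hp
    rw [Finset.mem_coe, Finset.mem_filter, Finset.mem_product] at hp
    refine ⟨f8 p.1, f8 p.2, hp.2, rfl, ?_⟩
    exact stabs_of_gt (gX _ hp.1.1) (gY _ hp.1.2)
  · intro p hp q hq h
    rw [Finset.mem_coe, Finset.mem_filter, Finset.mem_product] at hp hq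
    have h' : s(f8 p.1, f8 p.2) = s(f8 q.1, f8 q.2) := h
    rw [Sym2.eq_iff] at h'
    rcases h' with ⟨h1, h2⟩ | ⟨h1, h2⟩
    · exact Prod.ext (f8.injective h1) (f8.injective h2)
    · have e1 := f8.injective h1
      have h3 := hX _ hp.1.1
      have h4 := hY _ hq.1.2
      rw [e1] at h3
      exact absurd h3 (not_lt.mpr h4.le)

theorem conn_le (G : SimpleGraph T8) (hG : G.Connected) (X Y : Finset (Fin 8))
    (hXY : ∀ u, u ∈ X ∨ u ∈ Y) (x y : Fin 8) (hx : x ∈ X) (hy : y ∉ X) :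
    1 ≤ ∑ u ∈ X, ∑ v ∈ Y, ev G u v := by
  classical
  by_contra hcon
  have hz : ∑ u ∈ X, ∑ v ∈ Y, ev G u v = 0 := by omega
  have hz' : ∀ u ∈ X, ∀ v ∈ Y, ¬ G.Adj (f8 u) (f8 v) := by
    intro u hu v hv hadj
    have h1 := (Finset.sum_eq_zero_iff.mp hz) u hu
    have h2 := (Finset.sum_eq_zero_iff.mp h1) v hv
    unfold ev at h2
    rw [if_pos hadj] at h2
    exact absurd h2 one_ne_zero
  have key : ∀ (p q : T8) (w : G.Walk p q), f8.symm p ∈ X → f8.symm q ∈ X := by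
    intro p q w
    induction w with
    | nil => exact id
    | @cons p r q hadj w ih =>
      intro hp
      apply ih
      rcases hXY (f8.symm r) with h | h
      · exact h
      · exact absurd (by simpa using hadj) (hz' _ hp _ h)
  obtain ⟨w⟩ := hG.preconnected (f8 x) (f8 y)
  have := key _ _ w (by simpa using hx)
  exact hy (by simpa using this)

theorem tot_eq (G : SimpleGraph T8) (hG : G.IsTree) : ∑ u, ∑ v, ev G u v = 14 := by
  classical
  have h1 := hG.card_edgeFinset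
  have h2 := G.sum_degrees_eq_twice_card_edges
  have hc : Fintype.card T8 = 8 := by
    rw [Fintype.card_congr f8.symm]; simp
  rw [hc] at h1
  have h3 : ∑ p : T8, G.degree p = ∑ u : Fin 8, G.degree (f8 u) :=
    (Equiv.sum_comp f8 (fun p => G.degree p)).symm
  have h4 : ∀ u : Fin 8, G.degree (f8 u) = ∑ v, ev G u v := by
    intro u
    rw [← SimpleGraph.card_neighborFinset_eq_degree, SimpleGraph.neighborFinset_eq_filter,
      Finset.card_filter]
    rw [← Equiv.sum_comp f8]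
    rfl
  rw [h3] at h2
  simp only [h4] at h2
  omega

theorem three_le (G : SimpleGraph T8) (hG : G.IsTree) : 3 ≤ stabNumber G := by
  by_contra hcon
  have hle : stabNumber G ≤ 2 := by omega
  have hconn : G.Connected := hG.connected
  have h10 := ev_comm G 1 0
  have h20 := ev_comm G 2 0
  have h30 := ev_comm G 3 0
  have h40 := ev_comm G 4 0
  have h50 := ev_comm G 5 0
  have h60 := ev_comm G 6 0
  have h70 := ev_comm G 7 0
  have h21 := ev_comm G 2 1
  have h31 := ev_comm G 3 1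
  have h41 := ev_comm G 4 1
  have h51 := ev_comm G 5 1
  have h61 := ev_comm G 6 1
  have h71 := ev_comm G 7 1
  have h32 := ev_comm G 3 2
  have h42 := ev_comm G 4 2
  have h52 := ev_comm G 5 2
  have h62 := ev_comm G 6 2
  have h72 := ev_comm G 7 2
  have h43 := ev_comm G 4 3
  have h53 := ev_comm G 5 3
  have h63 := ev_comm G 6 3
  have h73 := ev_comm G 7 3
  have h54 := ev_comm G 5 4
  have h64 := ev_comm G 6 4
  have h74 := ev_comm G 7 4
  have h65 := ev_comm G 6 5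
  have h75 := ev_comm G 7 5
  have h76 := ev_comm G 7 6
  have el0 : ∑ u ∈ ({0, 1} : Finset (Fin 8)), ∑ v ∈ ({2, 3, 4, 5, 6, 7} : Finset (Fin 8)), ev G u v =
      ev G 0 2 + ev G 0 3 + ev G 0 4 + ev G 0 5 + ev G 0 6 + ev G 0 7 + ev G 1 2 + ev G 1 3 + ev G 1 4 + ev G 1 5 + ev G 1 6 + ev G 1 7 := by
    simp (decide := true) only [Finset.sum_insert, Finset.sum_singleton, Finset.mem_insert, Finset.mem_singleton, h10, h20, h30, h40, h50, h60, h70, h21, h31, h41, h51, h61, h71, h32, h42, h52, h62, h72, h43, h53, h63, h73, h54, h64, h74, h65, h75, h76, not_false_eq_true]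
    ring
  have el1 : ∑ u ∈ ({2, 3} : Finset (Fin 8)), ∑ v ∈ ({0, 1, 4, 5, 6, 7} : Finset (Fin 8)), ev G u v =
      ev G 0 2 + ev G 1 2 + ev G 2 4 + ev G 2 5 + ev G 2 6 + ev G 2 7 + ev G 0 3 + ev G 1 3 + ev G 3 4 + ev G 3 5 + ev G 3 6 + ev G 3 7 := by
    simp (decide := true) only [Finset.sum_insert, Finset.sum_singleton, Finset.mem_insert, Finset.mem_singleton, h10, h20, h30, h40, h50, h60, h70, h21, h31, h41, h51, h61, h71, h32, h42, h52, h62, h72, h43, h53, h63, h73, h54, h64, h74, h65, h75, h76, not_false_eq_true]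
    ring
  have el2 : ∑ u ∈ ({4, 5} : Finset (Fin 8)), ∑ v ∈ ({0, 1, 2, 3, 6, 7} : Finset (Fin 8)), ev G u v =
      ev G 0 4 + ev G 1 4 + ev G 2 4 + ev G 3 4 + ev G 4 6 + ev G 4 7 + ev G 0 5 + ev G 1 5 + ev G 2 5 + ev G 3 5 + ev G 5 6 + ev G 5 7 := by
    simp (decide := true) only [Finset.sum_insert, Finset.sum_singleton, Finset.mem_insert, Finset.mem_singleton, h10, h20, h30, h40, h50, h60, h70, h21, h31, h41, h51, h61, h71, h32, h42, h52, h62, h72, h43, h53, h63, h73, h54, h64, h74, h65, h75, h76, not_false_eq_true]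
    ring
  have el3 : ∑ u ∈ ({6, 7} : Finset (Fin 8)), ∑ v ∈ ({0, 1, 2, 3, 4, 5} : Finset (Fin 8)), ev G u v =
      ev G 0 6 + ev G 1 6 + ev G 2 6 + ev G 3 6 + ev G 4 6 + ev G 5 6 + ev G 0 7 + ev G 1 7 + ev G 2 7 + ev G 3 7 + ev G 4 7 + ev G 5 7 := by
    simp (decide := true) only [Finset.sum_insert, Finset.sum_singleton, Finset.mem_insert, Finset.mem_singleton, h10, h20, h30, h40, h50, h60, h70, h21, h31, h41, h51, h61, h71, h32, h42, h52, h62, h72, h43, h53, h63, h73, h54, h64, h74, h65, h75, h76, not_false_eq_true]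
    ring
  have ep0 : ∑ u ∈ ({0, 1, 2, 3} : Finset (Fin 8)), ∑ v ∈ ({4, 5, 6, 7} : Finset (Fin 8)), ev G u v =
      ev G 0 4 + ev G 0 5 + ev G 0 6 + ev G 0 7 + ev G 1 4 + ev G 1 5 + ev G 1 6 + ev G 1 7 + ev G 2 4 + ev G 2 5 + ev G 2 6 + ev G 2 7 + ev G 3 4 + ev G 3 5 + ev G 3 6 + ev G 3 7 := by
    simp (decide := true) only [Finset.sum_insert, Finset.sum_singleton, Finset.mem_insert, Finset.mem_singleton, h10, h20, h30, h40, h50, h60, h70, h21, h31, h41, h51, h61, h71, h32, h42, h52, h62, h72, h43, h53, h63, h73, h54, h64, h74, h65, h75, h76, not_false_eq_true]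
    ring
  have ep1 : ∑ u ∈ ({2, 3, 4, 5} : Finset (Fin 8)), ∑ v ∈ ({0, 1, 6, 7} : Finset (Fin 8)), ev G u v =
      ev G 0 2 + ev G 1 2 + ev G 2 6 + ev G 2 7 + ev G 0 3 + ev G 1 3 + ev G 3 6 + ev G 3 7 + ev G 0 4 + ev G 1 4 + ev G 4 6 + ev G 4 7 + ev G 0 5 + ev G 1 5 + ev G 5 6 + ev G 5 7 := by
    simp (decide := true) only [Finset.sum_insert, Finset.sum_singleton, Finset.mem_insert, Finset.mem_singleton, h10, h20, h30, h40, h50, h60, h70, h21, h31, h41, h51, h61, h71, h32, h42, h52, h62, h72, h43, h53, h63, h73, h54, h64, h74, h65, h75, h76, not_false_eq_true]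
    ring
  have es0 : ∑ u ∈ ({0, 1, 3} : Finset (Fin 8)), ∑ v ∈ ({2, 4, 5, 6, 7} : Finset (Fin 8)), ev G u v =
      ev G 0 2 + ev G 0 4 + ev G 0 5 + ev G 0 6 + ev G 0 7 + ev G 1 2 + ev G 1 4 + ev G 1 5 + ev G 1 6 + ev G 1 7 + ev G 2 3 + ev G 3 4 + ev G 3 5 + ev G 3 6 + ev G 3 7 := by
    simp (decide := true) only [Finset.sum_insert, Finset.sum_singleton, Finset.mem_insert, Finset.mem_singleton, h10, h20, h30, h40, h50, h60, h70, h21, h31, h41, h51, h61, h71, h32, h42, h52, h62, h72, h43, h53, h63, h73, h54, h64, h74, h65, h75, h76, not_false_eq_true]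
    ring
  have es1 : ∑ u ∈ ({2, 3, 5} : Finset (Fin 8)), ∑ v ∈ ({0, 1, 4, 6, 7} : Finset (Fin 8)), ev G u v =
      ev G 0 2 + ev G 1 2 + ev G 2 4 + ev G 2 6 + ev G 2 7 + ev G 0 3 + ev G 1 3 + ev G 3 4 + ev G 3 6 + ev G 3 7 + ev G 0 5 + ev G 1 5 + ev G 4 5 + ev G 5 6 + ev G 5 7 := by
    simp (decide := true) only [Finset.sum_insert, Finset.sum_singleton, Finset.mem_insert, Finset.mem_singleton, h10, h20, h30, h40, h50, h60, h70, h21, h31, h41, h51, h61, h71, h32, h42, h52, h62, h72, h43, h53, h63, h73, h54, h64, h74, h65, h75, h76, not_false_eq_true]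
    ring
  have es2 : ∑ u ∈ ({4, 5, 7} : Finset (Fin 8)), ∑ v ∈ ({0, 1, 2, 3, 6} : Finset (Fin 8)), ev G u v =
      ev G 0 4 + ev G 1 4 + ev G 2 4 + ev G 3 4 + ev G 4 6 + ev G 0 5 + ev G 1 5 + ev G 2 5 + ev G 3 5 + ev G 5 6 + ev G 0 7 + ev G 1 7 + ev G 2 7 + ev G 3 7 + ev G 6 7 := by
    simp (decide := true) only [Finset.sum_insert, Finset.sum_singleton, Finset.mem_insert, Finset.mem_singleton, h10, h20, h30, h40, h50, h60, h70, h21, h31, h41, h51, h61, h71, h32, h42, h52, h62, h72, h43, h53, h63, h73, h54, h64, h74, h65, h75, h76, not_false_eq_true]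
    ring
  have es3 : ∑ u ∈ ({1, 6, 7} : Finset (Fin 8)), ∑ v ∈ ({0, 2, 3, 4, 5} : Finset (Fin 8)), ev G u v =
      ev G 0 1 + ev G 1 2 + ev G 1 3 + ev G 1 4 + ev G 1 5 + ev G 0 6 + ev G 2 6 + ev G 3 6 + ev G 4 6 + ev G 5 6 + ev G 0 7 + ev G 2 7 + ev G 3 7 + ev G 4 7 + ev G 5 7 := by
    simp (decide := true) only [Finset.sum_insert, Finset.sum_singleton, Finset.mem_insert, Finset.mem_singleton, h10, h20, h30, h40, h50, h60, h70, h21, h31, h41, h51, h61, h71, h32, h42, h52, h62, h72, h43, h53, h63, h73, h54, h64, h74, h65, h75, h76, not_false_eq_true]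
    ring
  have et0 : ∑ u ∈ ({1, 2, 3} : Finset (Fin 8)), ∑ v ∈ ({0, 4, 5, 6, 7} : Finset (Fin 8)), ev G u v =
      ev G 0 1 + ev G 1 4 + ev G 1 5 + ev G 1 6 + ev G 1 7 + ev G 0 2 + ev G 2 4 + ev G 2 5 + ev G 2 6 + ev G 2 7 + ev G 0 3 + ev G 3 4 + ev G 3 5 + ev G 3 6 + ev G 3 7 := by
    simp (decide := true) only [Finset.sum_insert, Finset.sum_singleton, Finset.mem_insert, Finset.mem_singleton, h10, h20, h30, h40, h50, h60, h70, h21, h31, h41, h51, h61, h71, h32, h42, h52, h62, h72, h43, h53, h63, h73, h54, h64, h74, h65, h75, h76, not_false_eq_true]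
    ring
  have et1 : ∑ u ∈ ({3, 4, 5} : Finset (Fin 8)), ∑ v ∈ ({0, 1, 2, 6, 7} : Finset (Fin 8)), ev G u v =
      ev G 0 3 + ev G 1 3 + ev G 2 3 + ev G 3 6 + ev G 3 7 + ev G 0 4 + ev G 1 4 + ev G 2 4 + ev G 4 6 + ev G 4 7 + ev G 0 5 + ev G 1 5 + ev G 2 5 + ev G 5 6 + ev G 5 7 := by
    simp (decide := true) only [Finset.sum_insert, Finset.sum_singleton, Finset.mem_insert, Finset.mem_singleton, h10, h20, h30, h40, h50, h60, h70, h21, h31, h41, h51, h61, h71, h32, h42, h52, h62, h72, h43, h53, h63, h73, h54, h64, h74, h65, h75, h76, not_false_eq_true]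
    ring
  have et2 : ∑ u ∈ ({5, 6, 7} : Finset (Fin 8)), ∑ v ∈ ({0, 1, 2, 3, 4} : Finset (Fin 8)), ev G u v =
      ev G 0 5 + ev G 1 5 + ev G 2 5 + ev G 3 5 + ev G 4 5 + ev G 0 6 + ev G 1 6 + ev G 2 6 + ev G 3 6 + ev G 4 6 + ev G 0 7 + ev G 1 7 + ev G 2 7 + ev G 3 7 + ev G 4 7 := by
    simp (decide := true) only [Finset.sum_insert, Finset.sum_singleton, Finset.mem_insert, Finset.mem_singleton, h10, h20, h30, h40, h50, h60, h70, h21, h31, h41, h51, h61, h71, h32, h42, h52, h62, h72, h43, h53, h63, h73, h54, h64, h74, h65, h75, h76, not_false_eq_true]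
    ring
  have et3 : ∑ u ∈ ({0, 1, 7} : Finset (Fin 8)), ∑ v ∈ ({2, 3, 4, 5, 6} : Finset (Fin 8)), ev G u v =
      ev G 0 2 + ev G 0 3 + ev G 0 4 + ev G 0 5 + ev G 0 6 + ev G 1 2 + ev G 1 3 + ev G 1 4 + ev G 1 5 + ev G 1 6 + ev G 2 7 + ev G 3 7 + ev G 4 7 + ev G 5 7 + ev G 6 7 := by
    simp (decide := true) only [Finset.sum_insert, Finset.sum_singleton, Finset.mem_insert, Finset.mem_singleton, h10, h20, h30, h40, h50, h60, h70, h21, h31, h41, h51, h61, h71, h32, h42, h52, h62, h72, h43, h53, h63, h73, h54, h64, h74, h65, h75, h76, not_false_eq_true]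
    ring
  have l0 := (cut_le G {0, 1} {2, 3, 4, 5, 6, 7} (2) (0) (1) (by decide) (by decide) (by decide)).trans hle
  rw [el0] at l0
  have l1 := (cut_le G {2, 3} {0, 1, 4, 5, 6, 7} (0) (2) (1) (by decide) (by decide) (by decide)).trans hle
  rw [el1] at l1
  have l2 := (cut_le G {4, 5} {0, 1, 2, 3, 6, 7} (-2) (0) (1) (by decide) (by decide) (by decide)).trans hle
  rw [el2] at l2
  have l3 := (cut_le G {6, 7} {0, 1, 2, 3, 4, 5} (0) (-2) (1) (by decide) (by decide) (by decide)).trans hle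
  rw [el3] at l3
  have p0 := (cut_le G {0, 1, 2, 3} {4, 5, 6, 7} (1) (1) (0) (by decide) (by decide) (by decide)).trans hle
  rw [ep0] at p0
  have p1 := (cut_le G {2, 3, 4, 5} {0, 1, 6, 7} (-1) (1) (0) (by decide) (by decide) (by decide)).trans hle
  rw [ep1] at p1
  have s0 := (cut_le G {0, 1, 3} {2, 4, 5, 6, 7} (4) (2) (3) (by decide) (by decide) (by decide)).trans hle
  rw [es0] at s0
  have s1 := (cut_le G {2, 3, 5} {0, 1, 4, 6, 7} (-2) (4) (3) (by decide) (by decide) (by decide)).trans hle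
  rw [es1] at s1
  have s2 := (cut_le G {4, 5, 7} {0, 1, 2, 3, 6} (-4) (-2) (3) (by decide) (by decide) (by decide)).trans hle
  rw [es2] at s2
  have s3 := (cut_le G {1, 6, 7} {0, 2, 3, 4, 5} (2) (-4) (3) (by decide) (by decide) (by decide)).trans hle
  rw [es3] at s3
  have t0 := (cut_le G {1, 2, 3} {0, 4, 5, 6, 7} (2) (4) (3) (by decide) (by decide) (by decide)).trans hle
  rw [et0] at t0
  have t1 := (cut_le G {3, 4, 5} {0, 1, 2, 6, 7} (-4) (2) (3) (by decide) (by decide) (by decide)).trans hle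
  rw [et1] at t1
  have t2 := (cut_le G {5, 6, 7} {0, 1, 2, 3, 4} (-2) (-4) (3) (by decide) (by decide) (by decide)).trans hle
  rw [et2] at t2
  have t3 := (cut_le G {0, 1, 7} {2, 3, 4, 5, 6} (4) (-2) (3) (by decide) (by decide) (by decide)).trans hle
  rw [et3] at t3
  have c0 := conn_le G hconn {0, 1} {2, 3, 4, 5, 6, 7} (by decide) 0 2 (by decide) (by decide)
  rw [el0] at c0
  have c1 := conn_le G hconn {2, 3} {0, 1, 4, 5, 6, 7} (by decide) 2 0 (by decide) (by decide)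
  rw [el1] at c1
  have c2 := conn_le G hconn {4, 5} {0, 1, 2, 3, 6, 7} (by decide) 4 0 (by decide) (by decide)
  rw [el2] at c2
  have c3 := conn_le G hconn {6, 7} {0, 1, 2, 3, 4, 5} (by decide) 6 0 (by decide) (by decide)
  rw [el3] at c3
  have q0 := conn_le G hconn {0, 1, 2, 3} {4, 5, 6, 7} (by decide) 0 4 (by decide) (by decide)
  rw [ep0] at q0
  have q1 := conn_le G hconn {2, 3, 4, 5} {0, 1, 6, 7} (by decide) 2 0 (by decide) (by decide)
  rw [ep1] at q1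
  have tot := tot_eq G hG
  simp only [Fin.sum_univ_eight, ev_self, h10, h20, h30, h40, h50, h60, h70, h21, h31, h41, h51, h61, h71, h32, h42, h52, h62, h72, h43, h53, h63, h73, h54, h64, h74, h65, h75, h76] at tot
  have tot' : ev G 0 1 + ev G 0 2 + ev G 0 3 + ev G 0 4 + ev G 0 5 + ev G 0 6 + ev G 0 7 + ev G 1 2 + ev G 1 3 + ev G 1 4 + ev G 1 5 + ev G 1 6 + ev G 1 7 + ev G 2 3 + ev G 2 4 + ev G 2 5 + ev G 2 6 + ev G 2 7 + ev G 3 4 + ev G 3 5 + ev G 3 6 + ev G 3 7 + ev G 4 5 + ev G 4 6 + ev G 4 7 + ev G 5 6 + ev G 5 7 + ev G 6 7 = 7 := by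
    have : 2 * (ev G 0 1 + ev G 0 2 + ev G 0 3 + ev G 0 4 + ev G 0 5 + ev G 0 6 + ev G 0 7 + ev G 1 2 + ev G 1 3 + ev G 1 4 + ev G 1 5 + ev G 1 6 + ev G 1 7 + ev G 2 3 + ev G 2 4 + ev G 2 5 + ev G 2 6 + ev G 2 7 + ev G 3 4 + ev G 3 5 + ev G 3 6 + ev G 3 7 + ev G 4 5 + ev G 4 6 + ev G 4 7 + ev G 5 6 + ev G 5 7 + ev G 6 7) = 14 := by
      rw [← tot]; ring
    exact Nat.eq_of_mul_eq_mul_left (by norm_num) this
  exact comb_aux (ev G 0 1) (ev G 0 2) (ev G 0 3) (ev G 0 4) (ev G 0 5) (ev G 0 6) (ev G 0 7) (ev G 1 2) (ev G 1 3) (ev G 1 4) (ev G 1 5) (ev G 1 6) (ev G 1 7) (ev G 2 3) (ev G 2 4) (ev G 2 5) (ev G 2 6) (ev G 2 7) (ev G 3 4) (ev G 3 5) (ev G 3 6) (ev G 3 7) (ev G 4 5) (ev G 4 6) (ev G 4 7) (ev G 5 6) (ev G 5 7) (ev G 6 7)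
    (ev_le G 0 1) (ev_le G 2 3) (ev_le G 4 5) (ev_le G 6 7) l0 l1 l2 l3 p0 p1 s0 s1 s2 s3 t0 t1 t2 t3 c0 c1 c2 c3 q0 q1 tot'

end Pool.Agent.Helper29.Stab
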