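import Mathlib
import Pool.Agent.Helper29.Stab.Defs
import Pool.Agent.Helper29.Stab.Lower

/-!
# Upper bound: the cross tree on nine points is stabbed at most twice
-/

open Finset

set_option linter.unusedSimpArgs false

namespace Pool.Agent.Helper29.Stab

/-- Integer coordinates of the nine points of the cross. -/
def P9 : Fin 9 → ℤ × ℤ :=
  ![(0, 0), (1, 0), (2, 0), (0, 1), (0, 2), (-1, 0), (-2, 0), (0, -1), (0, -2)]

theorem P9_inj : Function.Injective P9 := by decide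

/-- The embedding of `Fin 9` into the plane. -/
def emb9 : Fin 9 ↪ ℝ × ℝ := ⟨fun i => R (P9 i), R_inj.comp P9_inj⟩

/-- The nine points of the cross. -/
noncomputable def S9 : Finset (ℝ × ℝ) := Finset.univ.map emb9

theorem emb9_mem (i : Fin 9) : emb9 i ∈ S9 := Finset.mem_map_of_mem _ (Finset.mem_univ i)

/-- The labelling of the nine points. -/
noncomputable def f9 : Fin 9 ≃ S9 :=
  Equiv.ofBijective (fun i => ⟨emb9 i, emb9_mem i⟩) (by
    constructor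
    · intro i j h
      exact emb9.injective (congrArg Subtype.val h)
    · rintro ⟨p, hp⟩
      obtain ⟨i, -, hi⟩ := Finset.mem_map.mp hp
      exact ⟨i, Subtype.ext hi⟩)

theorem f9_val (i : Fin 9) : ((f9 i : S9) : ℝ × ℝ) = R (P9 i) := rfl

/-- Horizontal edges (as pairs of labels); the edge number `k` goes from `(k - 2, 0)` to
`(k - 1, 0)`. -/
def hU : Fin 4 → Fin 9 := ![6, 5, 0, 1]
def hV : Fin 4 → Fin 9 := ![5, 0, 1, 2]
def vU : Fin 4 → Fin 9 := ![8, 7, 0, 3]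
def vV : Fin 4 → Fin 9 := ![7, 0, 3, 4]

/-- The cross tree on the labels. -/
def C9 : SimpleGraph (Fin 9) where
  Adj i j := (∃ k : Fin 4, (i = hU k ∧ j = hV k) ∨ (i = hV k ∧ j = hU k)) ∨
    (∃ k : Fin 4, (i = vU k ∧ j = vV k) ∨ (i = vV k ∧ j = vU k))
  symm := ⟨by decide⟩
  loopless := ⟨by decide⟩

instance : DecidableRel C9.Adj := fun i j => by unfold C9; infer_instance

theorem C9_reach (i : Fin 9) : C9.Reachable 0 i := by
  have h : ∀ i j, C9.Adj i j → C9.Reachable i j := fun i j h => h.reachable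
  have a1 := h 0 1 (by decide)
  have a2 := h 1 2 (by decide)
  have a3 := h 0 3 (by decide)
  have a4 := h 3 4 (by decide)
  have a5 := h 0 5 (by decide)
  have a6 := h 5 6 (by decide)
  have a7 := h 0 7 (by decide)
  have a8 := h 7 8 (by decide)
  fin_cases i
  · exact SimpleGraph.Reachable.refl _
  · exact a1
  · exact a1.trans a2
  · exact a3
  · exact a3.trans a4
  · exact a5
  · exact a5.trans a6
  · exact a7
  · exact a7.trans a8

theorem C9_conn : C9.Connected := by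
  rw [SimpleGraph.connected_iff_exists_forall_reachable]
  exact ⟨0, C9_reach⟩

theorem C9_card : C9.edgeFinset.card = 8 := by decide

theorem C9_tree : C9.IsTree := by
  rw [SimpleGraph.isTree_iff_connected_and_card]
  refine ⟨C9_conn, ?_⟩
  rw [Nat.card_eq_fintype_card, Nat.card_eq_fintype_card, ← SimpleGraph.edgeFinset_card, C9_card]
  rfl

/-- The cross tree on the nine points. -/
noncomputable def G9 : SimpleGraph S9 := C9.comap f9.symm

theorem G9_tree : G9.IsTree :=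
  (SimpleGraph.Iso.isTree_iff (SimpleGraph.Iso.comap f9.symm C9)).mpr C9_tree

theorem stab_h {a b c : ℝ} {s : ℤ}
    (h : Stabs {r : ℝ × ℝ | a * r.1 + b * r.2 = c} ((s : ℝ), (0 : ℝ)) (((s + 1 : ℤ) : ℝ), (0 : ℝ))) :
    a ≠ 0 ∧ (s : ℝ) < c / a ∧ c / a < (s : ℝ) + 1 := by
  obtain ⟨z, h1, x, y, hx, hy, hxy, rfl⟩ := h
  have hz : x • ((s : ℝ), (0 : ℝ)) + y • (((s + 1 : ℤ) : ℝ), (0 : ℝ)) ∈
      {r : ℝ × ℝ | a * r.1 + b * r.2 = c} ∩
        segment ℝ ((s : ℝ), (0 : ℝ)) (((s + 1 : ℤ) : ℝ), (0 : ℝ)) := by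
    rw [h1]; rfl
  have hz1 := hz.1
  simp only [Set.mem_ofPred_eq, Prod.smul_mk, Prod.mk_add_mk, smul_eq_mul, mul_zero, add_zero,
    Int.cast_add, Int.cast_one] at hz1
  have hx' : x = 1 - y := by linarith
  subst hx'
  have hc : a * ((s : ℝ) + y) = c := by linarith
  have ha : a ≠ 0 := by
    intro ha
    subst ha
    have hc0 : c = 0 := by linarith
    subst hc0
    have hp : ((s : ℝ), (0 : ℝ)) ∈ ({r : ℝ × ℝ | 0 * r.1 + b * r.2 = 0} ∩
        segment ℝ ((s : ℝ), (0 : ℝ)) (((s + 1 : ℤ) : ℝ), (0 : ℝ))) :=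
      ⟨by simp, left_mem_segment ℝ _ _⟩
    rw [h1] at hp
    have h3 := congrArg Prod.fst hp
    simp only [Prod.smul_mk, Prod.mk_add_mk, smul_eq_mul, mul_zero, add_zero,
      Int.cast_add, Int.cast_one] at h3
    nlinarith
  have hca : c / a = (s : ℝ) + y := by
    rw [← hc]; field_simp
  refine ⟨ha, ?_, ?_⟩
  · rw [hca]; linarith
  · rw [hca]; linarith

theorem stab_v {a b c : ℝ} {s : ℤ}
    (h : Stabs {r : ℝ × ℝ | a * r.1 + b * r.2 = c} ((0 : ℝ), (s : ℝ)) ((0 : ℝ), ((s + 1 : ℤ) : ℝ))) :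
    b ≠ 0 ∧ (s : ℝ) < c / b ∧ c / b < (s : ℝ) + 1 := by
  obtain ⟨z, h1, x, y, hx, hy, hxy, rfl⟩ := h
  have hz : x • ((0 : ℝ), (s : ℝ)) + y • ((0 : ℝ), ((s + 1 : ℤ) : ℝ)) ∈
      {r : ℝ × ℝ | a * r.1 + b * r.2 = c} ∩
        segment ℝ ((0 : ℝ), (s : ℝ)) ((0 : ℝ), ((s + 1 : ℤ) : ℝ)) := by
    rw [h1]; rfl
  have hz1 := hz.1
  simp only [Set.mem_ofPred_eq, Prod.smul_mk, Prod.mk_add_mk, smul_eq_mul, mul_zero, add_zero,
    zero_add, Int.cast_add, Int.cast_one] at hz1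
  have hx' : x = 1 - y := by linarith
  subst hx'
  have hc : b * ((s : ℝ) + y) = c := by linarith
  have hb : b ≠ 0 := by
    intro hb
    subst hb
    have hc0 : c = 0 := by linarith
    subst hc0
    have hp : ((0 : ℝ), (s : ℝ)) ∈ ({r : ℝ × ℝ | a * r.1 + 0 * r.2 = 0} ∩
        segment ℝ ((0 : ℝ), (s : ℝ)) ((0 : ℝ), ((s + 1 : ℤ) : ℝ))) :=
      ⟨by simp, left_mem_segment ℝ _ _⟩
    rw [h1] at hp
    have h3 := congrArg Prod.snd hp
    simp only [Prod.smul_mk, Prod.mk_add_mk, smul_eq_mul, mul_zero, add_zero,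
      Int.cast_add, Int.cast_one] at h3
    nlinarith
  have hcb : c / b = (s : ℝ) + y := by
    rw [← hc]; field_simp
  refine ⟨hb, ?_, ?_⟩
  · rw [hcb]; linarith
  · rw [hcb]; linarith

theorem uniq {t : ℝ} {s s' : ℤ} (h1 : (s : ℝ) < t) (h2 : t < (s : ℝ) + 1)
    (h3 : (s' : ℝ) < t) (h4 : t < (s' : ℝ) + 1) : s = s' := by
  have e1 : (s : ℝ) < (s' : ℝ) + 1 := by linarith
  have e2 : (s' : ℝ) < (s : ℝ) + 1 := by linarith
  have e1' : s < s' + 1 := by exact_mod_cast e1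
  have e2' : s' < s + 1 := by exact_mod_cast e2
  omega

theorem hU_val (k : Fin 4) :
    ((f9 (hU k) : S9) : ℝ × ℝ) = (((((k : ℕ) : ℤ) - 2 : ℤ) : ℝ), (0 : ℝ)) := by
  rw [f9_val]
  fin_cases k <;> simp [hU, R, P9]

theorem hV_val (k : Fin 4) :
    ((f9 (hV k) : S9) : ℝ × ℝ) = (((((k : ℕ) : ℤ) - 2 + 1 : ℤ) : ℝ), (0 : ℝ)) := by
  rw [f9_val]
  fin_cases k <;> simp [hV, R, P9]

theorem vU_val (k : Fin 4) :
    ((f9 (vU k) : S9) : ℝ × ℝ) = ((0 : ℝ), ((((k : ℕ) : ℤ) - 2 : ℤ) : ℝ)) := by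
  rw [f9_val]
  fin_cases k <;> simp [vU, R, P9]

theorem vV_val (k : Fin 4) :
    ((f9 (vV k) : S9) : ℝ × ℝ) = ((0 : ℝ), ((((k : ℕ) : ℤ) - 2 + 1 : ℤ) : ℝ)) := by
  rw [f9_val]
  fin_cases k <;> simp [vV, R, P9]

theorem stabs_symm {l : Set (ℝ × ℝ)} {p q : ℝ × ℝ} (h : Stabs l p q) : Stabs l q p := by
  obtain ⟨z, h1, h2⟩ := h
  exact ⟨z, by rw [segment_symm]; exact h1, by rw [openSegment_symm]; exact h2⟩

theorem stabCount_G9 {l : Set (ℝ × ℝ)} (hl : IsLine l) : stabCount G9 l ≤ 2 := by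
  classical
  obtain ⟨a, b, c, -, rfl⟩ := hl
  set l : Set (ℝ × ℝ) := {p : ℝ × ℝ | a * p.1 + b * p.2 = c} with hl
  -- horizontal edges stabbed by `l`
  have hh : ∀ k k' : Fin 4, Stabs l (f9 (hU k)) (f9 (hV k)) → Stabs l (f9 (hU k')) (f9 (hV k')) →
      k = k' := by
    intro k k' h h'
    rw [hU_val, hV_val] at h h'
    obtain ⟨-, h1, h2⟩ := stab_h h
    obtain ⟨-, h3, h4⟩ := stab_h h'
    have := uniq h1 h2 h3 h4
    apply Fin.ext
    omega
  have hv : ∀ k k' : Fin 4, Stabs l (f9 (vU k)) (f9 (vV k)) → Stabs l (f9 (vU k')) (f9 (vV k')) →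
      k = k' := by
    intro k k' h h'
    rw [vU_val, vV_val] at h h'
    obtain ⟨-, h1, h2⟩ := stab_v h
    obtain ⟨-, h3, h4⟩ := stab_v h'
    have := uniq h1 h2 h3 h4
    apply Fin.ext
    omega
  obtain ⟨e1, he1⟩ : ∃ e1 : Sym2 S9, ∀ k : Fin 4, Stabs l (f9 (hU k)) (f9 (hV k)) →
      s(f9 (hU k), f9 (hV k)) = e1 := by
    by_cases h : ∃ k : Fin 4, Stabs l (f9 (hU k)) (f9 (hV k))
    · obtain ⟨k0, hk0⟩ := h
      exact ⟨s(f9 (hU k0), f9 (hV k0)), fun k hk => by rw [hh k k0 hk hk0]⟩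
    · exact ⟨s(f9 0, f9 0), fun k hk => absurd ⟨k, hk⟩ h⟩
  obtain ⟨e2, he2⟩ : ∃ e2 : Sym2 S9, ∀ k : Fin 4, Stabs l (f9 (vU k)) (f9 (vV k)) →
      s(f9 (vU k), f9 (vV k)) = e2 := by
    by_cases h : ∃ k : Fin 4, Stabs l (f9 (vU k)) (f9 (vV k))
    · obtain ⟨k0, hk0⟩ := h
      exact ⟨s(f9 (vU k0), f9 (vV k0)), fun k hk => by rw [hv k k0 hk hk0]⟩
    · exact ⟨s(f9 0, f9 0), fun k hk => absurd ⟨k, hk⟩ h⟩
  unfold stabCount
  have hsub : {e : Sym2 S9 | ∃ p q : S9, G9.Adj p q ∧ e = s(p, q) ∧ Stabs l p q} ⊆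
      ({e1, e2} : Set (Sym2 S9)) := by
    rintro e ⟨p, q, hadj, rfl, hst⟩
    obtain ⟨i, rfl⟩ := f9.surjective p
    obtain ⟨j, rfl⟩ := f9.surjective q
    have hadj' : C9.Adj i j := by
      have : C9.Adj (f9.symm (f9 i)) (f9.symm (f9 j)) := hadj
      simpa using this
    rcases hadj' with ⟨k, ⟨rfl, rfl⟩ | ⟨rfl, rfl⟩⟩ | ⟨k, ⟨rfl, rfl⟩ | ⟨rfl, rfl⟩⟩
    · left; exact he1 k hst
    · left; rw [Sym2.eq_swap]; exact he1 k (stabs_symm hst)
    · right; exact he2 k hst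
    · right; rw [Sym2.eq_swap]; exact he2 k (stabs_symm hst)
  calc _ ≤ ({e1, e2} : Set (Sym2 S9)).ncard := Set.ncard_le_ncard hsub (Set.toFinite _)
    _ ≤ ({e2} : Set (Sym2 S9)).ncard + 1 := Set.ncard_insert_le e1 {e2}
    _ = 2 := by rw [Set.ncard_singleton]

theorem stabNumber_G9 : stabNumber G9 ≤ 2 := by
  unfold stabNumber
  apply csSup_le'
  rintro k ⟨l, hl, rfl⟩
  exact stabCount_G9 hl

theorem treeStab_S9 : treeStab S9 ≤ 2 :=
  le_trans (Nat.sInf_le ⟨G9, G9_tree, rfl⟩) stabNumber_G9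

theorem treeStab_T8 : 3 ≤ treeStab T8 := by
  unfold treeStab
  have hne : Nonempty T8 := ⟨f8 0⟩
  have hex : {k : ℕ | ∃ G : SimpleGraph T8, G.IsTree ∧ k = stabNumber G}.Nonempty := by
    obtain ⟨G, -, hG⟩ := (SimpleGraph.connected_top (V := T8)).exists_isTree_le
    exact ⟨_, G, hG, rfl⟩
  apply le_csInf hex
  rintro k ⟨G, hG, rfl⟩
  exact three_le G hG

theorem T8_subset_S9 : T8 ⊆ S9 := by
  intro p hp
  obtain ⟨i, -, rfl⟩ := Finset.mem_map.mp hp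
  refine Finset.mem_map.mpr ⟨i.succ, Finset.mem_univ _, ?_⟩
  show R (P9 i.succ) = R (P8 i)
  congr 1

theorem coe_S9 : (S9 : Set (ℝ × ℝ)) = {((0 : ℝ), (0 : ℝ)), (1, 0), (2, 0), (0, 1), (0, 2), (-1, 0),
    (-2, 0), (0, -1), (0, -2)} := by
  ext p
  unfold S9
  simp only [Finset.coe_map, Finset.coe_univ, Set.image_univ, Set.mem_range,
    Set.mem_insert_iff, Set.mem_singleton_iff]
  constructor
  · rintro ⟨i, rfl⟩
    show R (P9 i) = _ ∨ _
    fin_cases i <;> simp [R, P9, emb9]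
  · intro h
    rcases h with rfl | rfl | rfl | rfl | rfl | rfl | rfl | rfl | rfl
    · exact ⟨0, by simp [R, P9, emb9]⟩
    · exact ⟨1, by simp [R, P9, emb9]⟩
    · exact ⟨2, by simp [R, P9, emb9]⟩
    · exact ⟨3, by simp [R, P9, emb9]⟩
    · exact ⟨4, by simp [R, P9, emb9]⟩
    · exact ⟨5, by simp [R, P9, emb9]⟩
    · exact ⟨6, by simp [R, P9, emb9]⟩
    · exact ⟨7, by simp [R, P9, emb9]⟩
    · exact ⟨8, by simp [R, P9, emb9]⟩

theorem coe_T8 : (T8 : Set (ℝ × ℝ)) = {((1 : ℝ), (0 : ℝ)), (2, 0), (0, 1), (0, 2), (-1, 0),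
    (-2, 0), (0, -1), (0, -2)} := by
  ext p
  unfold T8
  simp only [Finset.coe_map, Finset.coe_univ, Set.image_univ, Set.mem_range,
    Set.mem_insert_iff, Set.mem_singleton_iff]
  constructor
  · rintro ⟨i, rfl⟩
    show R (P8 i) = _ ∨ _
    fin_cases i <;> simp [R, P8, emb8]
  · intro h
    rcases h with rfl | rfl | rfl | rfl | rfl | rfl | rfl | rfl
    · exact ⟨0, by simp [R, P8, emb8]⟩
    · exact ⟨1, by simp [R, P8, emb8]⟩
    · exact ⟨2, by simp [R, P8, emb8]⟩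
    · exact ⟨3, by simp [R, P8, emb8]⟩
    · exact ⟨4, by simp [R, P8, emb8]⟩
    · exact ⟨5, by simp [R, P8, emb8]⟩
    · exact ⟨6, by simp [R, P8, emb8]⟩
    · exact ⟨7, by simp [R, P8, emb8]⟩

end Pool.Agent.Helper29.Stab
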